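import Pool.Agent.H24.RCN.Targets

set_option autoImplicit false

open NumberField Pool.Agent.H24.RCN

namespace Pool.Agent.H61.RCN

theorem tor_pow {L : Type} [Field L] [NumberField L] (u : (𝓞 L)ˣ)
    (h : Tor ((u : 𝓞 L) : L)) : u ^ Units.torsionOrder L = 1 := by
  obtain ⟨n, hn, h1⟩ := h
  have hu : u ∈ Units.torsion L := by
    rw [Units.torsion, CommGroup.mem_torsion, isOfFinOrder_iff_pow_eq_one]
    refine ⟨n, hn, ?_⟩
    apply Units.ext
    apply RingOfIntegers.ext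
    push_cast
    exact h1
  have h2 : (⟨u, hu⟩ : Units.torsion L) ^ Nat.card (Units.torsion L) = 1 := pow_card_eq_one'
  have h3 : ((⟨u, hu⟩ : Units.torsion L) ^ Nat.card (Units.torsion L)).1 = 1 := by
    rw [h2]; rfl
  exact h3

theorem pf_FIX : T_FIX := by
  intro F L _ _ _ _ _ κ σ J M _ _ _ c f hκ hE hU hf
  have := hE.gal
  have : FiniteDimensional F L := FiniteDimensional.of_finrank_pos (by rw [hE.deg]; exact hκ.pos)
  have hc1 : c 1 = 0 := (hU.zero 1).2 ⟨1, one_pos, by simp⟩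
  let cA : Additive (𝓞 L)ˣ →+ M :=
    { toFun := fun u => c u.toMul
      map_zero' := hc1
      map_add' := fun u v => hU.mul _ _ }
  have hcA : ∀ u : (𝓞 L)ˣ, cA (Additive.ofMul u) = c u := fun u => rfl
  let ι : (𝓞 F)ˣ →* (𝓞 L)ˣ := Units.map (algebraMap (𝓞 F) (𝓞 L) : 𝓞 F →* 𝓞 L)
  have hι : ∀ v : (𝓞 F)ˣ, ((ι v : 𝓞 L) : L) = algebraMap F L ((v : 𝓞 F) : F) := fun v => rfl
  let Ψ : Additive (𝓞 F)ˣ →+ M := cA.comp (MonoidHom.toAdditive ι)
  have hΨ : ∀ v : (𝓞 F)ˣ, Ψ (Additive.ofMul v) = c (ι v) := fun v => rfl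
  let N : Submodule ℤ M := Submodule.span ℤ
    (Set.range fun i : Fin (Units.rank F) => Ψ (Additive.ofMul (Units.fundSystem F i)))
  have hN : ∀ v : (𝓞 F)ˣ, Ψ (Additive.ofMul v) ∈ N := by
    intro v
    obtain ⟨⟨ζ, e⟩, hv, -⟩ := Units.exist_unique_eq_mul_prod F v
    have hv' : v = (ζ : (𝓞 F)ˣ) * ∏ i, (Units.fundSystem F i) ^ (e i) := hv
    have hζ : Ψ (Additive.ofMul (ζ : (𝓞 F)ˣ)) = 0 := by
      rw [hΨ, hU.zero]
      have h1 : (ζ : (𝓞 F)ˣ) ∈ CommGroup.torsion (𝓞 F)ˣ := ζ.2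
      rw [CommGroup.mem_torsion, isOfFinOrder_iff_pow_eq_one] at h1
      obtain ⟨n, hn, h2⟩ := h1
      refine ⟨n, hn, ?_⟩
      have h3 : ι ((ζ : (𝓞 F)ˣ)) ^ n = 1 := by rw [← map_pow, h2, map_one]
      have h4 := congrArg (fun w : (𝓞 L)ˣ => ((w : 𝓞 L) : L)) h3
      simpa using h4
    rw [hv', ofMul_mul, map_add, hζ, zero_add, ofMul_prod, map_sum]
    refine Submodule.sum_mem _ fun i _ => ?_
    rw [ofMul_zpow, map_zsmul]
    exact Submodule.smul_mem _ _ (Submodule.subset_span ⟨i, rfl⟩)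
  set W : ℕ := Units.torsionOrder L with hW
  have key : ∀ m ∈ LinearMap.ker (f - 1), (W : ℤ) • m ∈ N := by
    intro m hm
    obtain ⟨u, rfl⟩ := hU.surj m
    have hfm : f (c u) = c u := by
      rw [LinearMap.mem_ker, LinearMap.sub_apply, Module.End.one_apply, sub_eq_zero] at hm
      exact hm
    let S : (𝓞 L)ˣ := Units.map (RingOfIntegers.mapRingHom (σ : L →+* L) : 𝓞 L →* 𝓞 L) u
    have hS : ((S : 𝓞 L) : L) = σ ((u : 𝓞 L) : L) := rfl
    have h1 : c S = c u := by rw [← hf u S hS, hfm]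
    have h2 : c (S * u⁻¹) = 0 := by
      have h3 : cA (Additive.ofMul u⁻¹) = - cA (Additive.ofMul u) := by
        rw [ofMul_inv, map_neg]
      rw [hU.mul, ← hcA u⁻¹, h3, hcA, h1, add_neg_cancel]
    have h4 := tor_pow _ ((hU.zero _).1 h2)
    have h5 : S ^ W = u ^ W := by
      rw [mul_pow, inv_pow] at h4
      exact mul_inv_eq_one.1 h4
    set x : L := (((u ^ W : (𝓞 L)ˣ) : 𝓞 L) : L) with hx
    have h6 : σ x = x := by
      have h7 : ((((S ^ W : (𝓞 L)ˣ) : 𝓞 L)) : L) = (((u ^ W : (𝓞 L)ˣ) : 𝓞 L) : L) := by rw [h5]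
      have h7' : ∀ w : (𝓞 L)ˣ, (((w ^ W : (𝓞 L)ˣ) : 𝓞 L) : L) = ((w : 𝓞 L) : L) ^ W := by
        intro w
        rw [Units.val_pow_eq_pow_val]
        exact map_pow (algebraMap (𝓞 L) L) _ _
      rw [h7', hS, ← map_pow, ← h7'] at h7
      exact h7
    have h8 : ∀ τ : L ≃ₐ[F] L, τ x = x := by
      intro τ
      have h9 : σ ∈ MulAction.stabilizer (L ≃ₐ[F] L) x := h6
      have h10 := (Subgroup.zpowers_le.2 h9) (hE.gen τ)
      exact h10
    obtain ⟨y, hy⟩ := (IsGalois.mem_range_algebraMap_iff_fixed x).2 h8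
    have hxint : IsIntegral ℤ x := RingOfIntegers.isIntegral_coe _
    have hxinv : x⁻¹ = ((((u ^ W)⁻¹ : (𝓞 L)ˣ) : 𝓞 L) : L) := by
      have h11 : x * ((((u ^ W)⁻¹ : (𝓞 L)ˣ) : 𝓞 L) : L) = 1 := by
        rw [hx, ← map_mul, ← Units.val_mul, mul_inv_cancel]
        simp
      exact (eq_inv_of_mul_eq_one_right h11).symm
    have hxint' : IsIntegral ℤ x⁻¹ := by rw [hxinv]; exact RingOfIntegers.isIntegral_coe _
    have hx0 : x ≠ 0 := by
      rw [hx]
      have : ((u ^ W : (𝓞 L)ˣ) : 𝓞 L) ≠ 0 := Units.ne_zero _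
      exact RingOfIntegers.coe_ne_zero_iff.2 this
    have hy0 : y ≠ 0 := by
      rintro rfl
      rw [map_zero] at hy
      exact hx0 hy.symm
    have hyint : IsIntegral ℤ y :=
      (isIntegral_algebraMap_iff (algebraMap F L).injective).1 (by rw [hy]; exact hxint)
    have hyint' : IsIntegral ℤ y⁻¹ :=
      (isIntegral_algebraMap_iff (algebraMap F L).injective).1 (by
        rw [map_inv₀, hy]; exact hxint')
    let v : (𝓞 F)ˣ :=
      { val := ⟨y, hyint⟩
        inv := ⟨y⁻¹, hyint'⟩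
        val_inv := by
          apply RingOfIntegers.ext
          show y * y⁻¹ = 1
          exact mul_inv_cancel₀ hy0
        inv_val := by
          apply RingOfIntegers.ext
          show y⁻¹ * y = 1
          exact inv_mul_cancel₀ hy0 }
    have hv : ι v = u ^ W := by
      apply Units.ext
      apply RingOfIntegers.ext
      rw [hι]
      exact hy
    have h12 : (W : ℤ) • c u = Ψ (Additive.ofMul v) := by
      rw [hΨ, hv, ← hcA, ← hcA, ofMul_pow, map_nsmul, natCast_zsmul]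
    rw [h12]
    exact hN v
  have hW0 : (W : ℤ) ≠ 0 := by
    exact_mod_cast Units.torsionOrder_ne_zero L
  let g : LinearMap.ker (f - 1) →ₗ[ℤ] N :=
    LinearMap.codRestrict N ((W : ℤ) • (LinearMap.ker (f - 1)).subtype) (fun m => key m.1 m.2)
  have hg : Function.Injective g := by
    intro a b hab
    have h1 := congrArg Subtype.val hab
    have h2 : (W : ℤ) • (a : M) = (W : ℤ) • (b : M) := h1
    exact Subtype.ext (smul_right_injective M hW0 h2)
  calc Module.finrank ℤ (LinearMap.ker (f - 1)) ≤ Module.finrank ℤ N :=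
        LinearMap.finrank_le_finrank_of_injective hg
    _ ≤ Fintype.card (Fin (Units.rank F)) := finrank_range_le_card (R := ℤ) _
    _ = Units.rank F := Fintype.card_fin _

end Pool.Agent.H61.RCN
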